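import Pool.Agent.R318.ST.Dig

/-!
# Words read by weighted automata: the characteristic function
-/

set_option autoImplicit false

namespace Pool.Agent.K3h89.RD

open Finset
open Pool.Agent.R459.Eq (Decays shift_sum)
open Pool.Agent.H807R2.Dav (ee ee_add norm_ee)
open Pool.Agent.TH872.Mir (Far farCount)
open Pool.Agent.R318.ST (single_bound)

section words

variable {b : ℕ}

/-- the value of a word, the first letter being the most significant digit -/
def vb (b : ℕ) {N : ℕ} (v : Fin N → Fin b) : ℕ := ∑ i : Fin N, (v (Fin.rev i) : ℕ) * b ^ (i : ℕ)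

lemma vb_equiv {N : ℕ} (v : Fin N → Fin b) :
    vb b v = (finFunctionFinEquiv (fun i => v (Fin.rev i)) : ℕ) := by
  rw [finFunctionFinEquiv_apply]
  rfl

lemma vb_lt {N : ℕ} (v : Fin N → Fin b) : vb b v < b ^ N := by
  rw [vb_equiv]
  exact (finFunctionFinEquiv _).2

lemma vb_inj {N : ℕ} : Function.Injective (vb b : (Fin N → Fin b) → ℕ) := by
  intro v v' h
  rw [vb_equiv, vb_equiv] at h
  have h1 := finFunctionFinEquiv.injective (Fin.ext h)
  funext i
  have h2 := congrFun h1 (Fin.rev i)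
  simp only [Fin.rev_rev] at h2
  exact h2

lemma image_vb (N : ℕ) : (univ : Finset (Fin N → Fin b)).image (vb b) = range (b ^ N) := by
  apply eq_of_subset_of_card_le
  · intro a ha
    rw [mem_image] at ha
    obtain ⟨v, _, rfl⟩ := ha
    exact mem_range.2 (vb_lt v)
  · rw [card_image_of_injective _ vb_inj, card_range, card_univ, Fintype.card_pi_const, Fintype.card_fin]

lemma sum_vb {M : Type} [AddCommMonoid M] (N : ℕ) (h : ℕ → M) :
    ∑ a ∈ range (b ^ N), h a = ∑ v : Fin N → Fin b, h (vb b v) := by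
  rw [← image_vb, sum_image fun v _ v' _ h => vb_inj h]

lemma vb_eq {N : ℕ} (v : Fin N → Fin b) : vb b v = ∑ j : Fin N, (v j : ℕ) * b ^ (N - 1 - (j : ℕ)) := by
  unfold vb
  rw [← Equiv.sum_comp Fin.revPerm]
  refine sum_congr rfl fun i _ => ?_
  rw [Fin.revPerm_apply, Fin.rev_rev, Fin.val_rev]
  congr 2
  omega

lemma ee_sum {ι : Type} (s : Finset ι) (x : ι → ℝ) : ∏ i ∈ s, ee (x i) = ee (∑ i ∈ s, x i) := by
  classical
  induction s using Finset.induction_on with
  | empty =>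
      rw [prod_empty, sum_empty]
      unfold ee
      simp
  | insert a s ha ih => rw [prod_insert ha, sum_insert ha, ih, ee_add]

lemma sum_append {M : Type} [AddCommMonoid M] (l m : ℕ) (h : (Fin (l + m) → Fin b) → M) :
    ∑ w, h w = ∑ u : Fin l → Fin b, ∑ v : Fin m → Fin b, h (Fin.append u v) := by
  rw [← Equiv.sum_comp (Fin.appendEquiv l m), Fintype.sum_prod_type]
  rfl

end words

variable {b : ℕ} {Q : Type} [Fintype Q] [DecidableEq Q]

/-- the product of the matrices of the letters of `u`, read from the time `r` on -/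
def mp (G : ℕ → Fin b → Matrix Q Q ℝ) (r : ℕ) {l : ℕ} (u : Fin l → Fin b) : Matrix Q Q ℝ :=
  (List.ofFn fun j : Fin l => G (r + j) (u j)).prod

lemma mp_append (G : ℕ → Fin b → Matrix Q Q ℝ) (r l m : ℕ) (u : Fin l → Fin b) (v : Fin m → Fin b) :
    mp G r (Fin.append u v) = mp G r u * mp G (r + l) v := by
  unfold mp
  rw [← List.prod_append, ← List.ofFn_fin_append]
  congr 2
  funext j
  refine Fin.addCases (fun j => ?_) (fun j => ?_) j
  · rw [Fin.append_left, Fin.append_left]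
    rfl
  · rw [Fin.append_right, Fin.append_right, Fin.val_natAdd, add_assoc]

lemma mp_nonneg (G : ℕ → Fin b → Matrix Q Q ℝ) (hG : ∀ r c q q', 0 ≤ G r c q q') :
    ∀ (l r : ℕ) (u : Fin l → Fin b) (q q' : Q), 0 ≤ mp G r u q q' := by
  intro l
  induction l with
  | zero =>
      intro r u q q'
      unfold mp
      rw [List.ofFn_zero, List.prod_nil, Matrix.one_apply]
      split_ifs <;> norm_num
  | succ l ih =>
      intro r u q q'
      have h1 : mp G r u = G r (u 0) * mp G (r + 1) (fun j => u j.succ) := by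
        unfold mp
        rw [List.ofFn_succ, List.prod_cons]
        congr 2
        congr 1
        funext j
        rw [Fin.val_succ]
        congr 1
        omega
      rw [h1, Matrix.mul_apply]
      exact sum_nonneg fun p _ => mul_nonneg (hG _ _ _ _) (ih _ _ _ _)

/-- the twisted sums over the words -/
noncomputable def Cm (G : ℕ → Fin b → Matrix Q Q ℝ) (f : ℕ → Fin b → ℂ) (r l : ℕ) (q q' : Q) : ℂ :=
  ∑ u : Fin l → Fin b, (∏ j : Fin l, f (r + (j : ℕ)) (u j)) * (mp G r u q q' : ℂ)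

/-- the sums over the words -/
noncomputable def Rm (G : ℕ → Fin b → Matrix Q Q ℝ) (r l : ℕ) (q q' : Q) : ℝ :=
  ∑ u : Fin l → Fin b, mp G r u q q'

lemma Cm_add (G : ℕ → Fin b → Matrix Q Q ℝ) (f : ℕ → Fin b → ℂ) (r l m : ℕ) (q q' : Q) :
    Cm G f r (l + m) q q' = ∑ p, Cm G f r l q p * Cm G f (r + l) m p q' := by
  unfold Cm
  rw [sum_append]
  simp_rw [sum_mul_sum]
  rw [sum_comm' (t' := (univ : Finset (Fin l → Fin b))) (s' := fun _ => (univ : Finset Q)) (by simp)]
  refine sum_congr rfl fun u _ => ?_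
  rw [sum_comm]
  refine sum_congr rfl fun v _ => ?_
  rw [Fin.prod_univ_add, mp_append, Matrix.mul_apply]
  simp only [Fin.append_left, Fin.append_right, Fin.val_castAdd, Fin.val_natAdd]
  push_cast
  rw [mul_sum]
  refine sum_congr rfl fun p _ => ?_
  simp only [add_assoc]
  ring

lemma Rm_add (G : ℕ → Fin b → Matrix Q Q ℝ) (r l m : ℕ) (q q' : Q) :
    Rm G r (l + m) q q' = ∑ p, Rm G r l q p * Rm G (r + l) m p q' := by
  unfold Rm
  rw [sum_append]
  simp_rw [sum_mul_sum]
  rw [sum_comm' (t' := (univ : Finset (Fin l → Fin b))) (s' := fun _ => (univ : Finset Q)) (by simp)]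
  refine sum_congr rfl fun u _ => ?_
  rw [sum_comm]
  refine sum_congr rfl fun v _ => ?_
  rw [mp_append, Matrix.mul_apply]

lemma Rm_nonneg (G : ℕ → Fin b → Matrix Q Q ℝ) (hG : ∀ r c q q', 0 ≤ G r c q q') (r l : ℕ) (q q' : Q) :
    0 ≤ Rm G r l q q' := sum_nonneg fun u _ => mp_nonneg G hG l r u q q'

lemma Cm_le (G : ℕ → Fin b → Matrix Q Q ℝ) (hG : ∀ r c q q', 0 ≤ G r c q q') (f : ℕ → Fin b → ℂ)
    (hf : ∀ r c, ‖f r c‖ = 1) (r l : ℕ) (q q' : Q) : ‖Cm G f r l q q'‖ ≤ Rm G r l q q' := by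
  unfold Cm Rm
  refine (norm_sum_le _ _).trans (le_of_eq (sum_congr rfl fun u _ => ?_))
  rw [norm_mul, norm_prod, Complex.norm_real, Real.norm_of_nonneg (mp_nonneg G hG l r u q q')]
  simp only [hf, prod_const_one, one_mul]

/-- a block whose frequency is far from the integers -/
lemma block (L : ℕ) (G : ℕ → Fin b → Matrix Q Q ℝ) (hG : ∀ r c q q', 0 ≤ G r c q q') (f : ℕ → Fin b → ℂ)
    (r : ℕ) (t : ℝ) (hf : ∀ j < L, ∀ c : Fin b, f (r + j) c = ee (((c : ℕ) * b ^ (L - 1 - j) : ℕ) * t))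
    (η : ℝ) (hη : 0 < η) (δ : ℝ) (hδ : 0 ≤ δ)
    (hfar : ∀ D : ℤ, D ≠ 0 → |D| < (b ^ L : ℕ) → ∀ n : ℤ, δ ≤ |(D : ℝ) * t - n|) (q q' : Q)
    (hat : ∀ u : Fin L → Fin b, mp G r u q q' ≤ (1 - η) * Rm G r L q q') :
    ‖Cm G f r L q q'‖ ≤ (1 - 4 * (η / ((b ^ L : ℕ) : ℝ) ^ 2) * δ ^ 2) * Rm G r L q q' := by
  have hR := Rm_nonneg G hG r L q q'
  have hC : Cm G f r L q q' = ∑ u : Fin L → Fin b, (mp G r u q q' : ℂ) * ee ((vb b u : ℕ) * t) := by
    unfold Cm
    refine sum_congr rfl fun u _ => ?_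
    rw [mul_comm]
    congr 1
    rw [vb_eq u, Nat.cast_sum, sum_mul, ← ee_sum]
    exact prod_congr rfl fun j _ => hf j j.2 (u j)
  rcases hR.eq_or_lt with h0 | h0
  · have h1 : ∀ u : Fin L → Fin b, mp G r u q q' = 0 := by
      intro u
      have h2 := hat u
      rw [← h0, mul_zero] at h2
      exact le_antisymm h2 (mp_nonneg G hG L r u q q')
    rw [hC, ← h0, mul_zero]
    simp only [h1, Complex.ofReal_zero, zero_mul, sum_const_zero, norm_zero, le_refl]
  · obtain ⟨v, hv⟩ : ∃ v : ℕ → ℝ, ∀ u : Fin L → Fin b, v (vb b u) = mp G r u q q' / Rm G r L q q' := by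
      refine ⟨Function.extend (vb b : (Fin L → Fin b) → ℕ) (fun u => mp G r u q q' / Rm G r L q q')
        (fun _ => 0), fun u => ?_⟩
      exact Function.Injective.extend_apply vb_inj _ _ u
    obtain ⟨v', hv'⟩ : ∃ v' : ℕ → ℝ, v' = fun a => |v a| := ⟨_, rfl⟩
    have hvv : ∀ u : Fin L → Fin b, v' (vb b u) = mp G r u q q' / Rm G r L q q' := by
      intro u
      rw [hv']
      simp only
      rw [hv u, abs_of_nonneg (div_nonneg (mp_nonneg G hG L r u q q') hR)]
    have hsum : ∑ a ∈ range (b ^ L), v' a = 1 := by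
      rw [sum_vb]
      simp only [hvv]
      rw [← sum_div]
      exact div_self h0.ne'
    have hcol : ∑ a ∈ range (b ^ L), v' a ^ 2 ≤ 1 - η := by
      rw [sum_vb]
      calc ∑ u : Fin L → Fin b, v' (vb b u) ^ 2 ≤ ∑ u : Fin L → Fin b, (1 - η) * v' (vb b u) := by
            refine sum_le_sum fun u _ => ?_
            rw [sq]
            apply mul_le_mul_of_nonneg_right _ (by rw [hv']; exact abs_nonneg _)
            rw [hvv u, div_le_iff₀ h0]
            exact hat u
        _ = (1 - η) * 1 := by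
            rw [← mul_sum, ← sum_vb, hsum]
        _ = 1 - η := mul_one _
    have h1 := single_bound (b ^ L) v' (fun a => by rw [hv']; exact abs_nonneg _) hsum η hη hcol t δ hδ hfar
    rw [sum_vb] at h1
    have h2 : Cm G f r L q q' = (Rm G r L q q' : ℂ) * ∑ u : Fin L → Fin b, ((v' (vb b u) : ℝ) : ℂ) * ee ((vb b u : ℕ) * t) := by
      rw [hC, mul_sum]
      refine sum_congr rfl fun u _ => ?_
      rw [hvv u, ← mul_assoc]
      congr 1
      have h3 : (Rm G r L q q' : ℂ) ≠ 0 := by exact_mod_cast h0.ne'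
      push_cast
      rw [mul_div_cancel₀ _ h3]
    rw [h2, norm_mul, Complex.norm_real, Real.norm_of_nonneg hR, mul_comm]
    exact mul_le_mul_of_nonneg_right h1 hR

/-- many blocks -/
lemma chain (L : ℕ) (G : ℕ → Fin b → Matrix Q Q ℝ) (hG : ∀ r c q q', 0 ≤ G r c q q') (f : ℕ → Fin b → ℂ)
    (hf : ∀ r c, ‖f r c‖ = 1) (γ : ℝ) (hγ : 0 ≤ γ) (K : Finset ℕ) : ∀ k : ℕ,
    (∀ j ∈ K, j < k → ∀ q q', ‖Cm G f (j * L) L q q'‖ ≤ γ * Rm G (j * L) L q q') → ∀ q q',
    ‖Cm G f 0 (k * L) q q'‖ ≤ γ ^ (K.filter (· < k)).card * Rm G 0 (k * L) q q' := by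
  intro k
  induction k with
  | zero =>
      intro _ q q'
      have h1 : K.filter (· < 0) = ∅ := filter_eq_empty_iff.2 fun j _ => Nat.not_lt_zero j
      rw [h1, card_empty, pow_zero, one_mul]
      exact Cm_le G hG f hf _ _ q q'
  | succ k ih =>
      intro h q q'
      have h1 := ih fun j hj hjk => h j hj (by omega)
      rw [Nat.succ_mul, Cm_add, Rm_add, zero_add, mul_sum]
      refine (norm_sum_le _ _).trans (sum_le_sum fun p _ => ?_)
      rw [norm_mul]
      have hR1 := Rm_nonneg G hG 0 (k * L) q p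
      have hR2 := Rm_nonneg G hG (k * L) L p q'
      by_cases hk : k ∈ K
      · have h2 : (K.filter (· < k + 1)).card = (K.filter (· < k)).card + 1 := by
          have h3 : K.filter (· < k + 1) = insert k (K.filter (· < k)) := by
            ext j
            simp only [mem_filter, mem_insert]
            constructor
            · rintro ⟨h4, h5⟩
              by_cases hjk : j = k
              · exact Or.inl hjk
              · exact Or.inr ⟨h4, by omega⟩
            · rintro (h4 | h4)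
              · rw [h4]
                exact ⟨hk, by omega⟩
              · exact ⟨h4.1, by omega⟩
          rw [h3, card_insert_of_notMem]
          simp
        rw [h2, pow_succ]
        calc ‖Cm G f 0 (k * L) q p‖ * ‖Cm G f (k * L) L p q'‖ ≤
            (γ ^ (K.filter (· < k)).card * Rm G 0 (k * L) q p) * (γ * Rm G (k * L) L p q') := by
              apply mul_le_mul (h1 q p) (h k hk (by omega) p q') (norm_nonneg _)
              positivity
          _ = _ := by ring
      · have h2 : (K.filter (· < k + 1)).card = (K.filter (· < k)).card := by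
          congr 1
          ext j
          simp only [mem_filter]
          constructor
          · rintro ⟨h4, h5⟩
            refine ⟨h4, ?_⟩
            by_cases hjk : j = k
            · rw [hjk] at h4
              exact absurd h4 hk
            · omega
          · rintro ⟨h4, h5⟩
            exact ⟨h4, by omega⟩
        rw [h2]
        calc ‖Cm G f 0 (k * L) q p‖ * ‖Cm G f (k * L) L p q'‖ ≤
            (γ ^ (K.filter (· < k)).card * Rm G 0 (k * L) q p) * Rm G (k * L) L p q' := by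
              apply mul_le_mul (h1 q p) (Cm_le G hG f hf _ _ p q') (norm_nonneg _)
              positivity
          _ = _ := by ring

open Classical in
/-- the blocks which contain a far place -/
lemma far_blocks (b L : ℕ) (hL : 1 ≤ L) (F N : ℕ) (θ : ℝ) :
    farCount b F N θ ≤ (L - 1) + L * ((range (N / L)).filter fun j => ∃ e, e < N ∧ (N - 1 - e) / L = j ∧
      Far (1 / (b : ℝ) ^ 2) ((F : ℝ) * ((b : ℝ) ^ e * θ))).card := by
  unfold farCount
  obtain ⟨K, hK⟩ : ∃ K, K = (range (N / L)).filter fun j => ∃ e, e < N ∧ (N - 1 - e) / L = j ∧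
      Far (1 / (b : ℝ) ^ 2) ((F : ℝ) * ((b : ℝ) ^ e * θ)) := ⟨_, rfl⟩
  rw [← hK]
  obtain ⟨T, hT⟩ : ∃ T, T = (range N).filter (fun j => Far (1 / (b : ℝ) ^ 2) ((F : ℝ) * ((b : ℝ) ^ j * θ))) := ⟨_, rfl⟩
  rw [← hT]
  have h1 : T ⊆ range (N % L) ∪ K.biUnion fun j => (range N).filter fun e => (N - 1 - e) / L = j := by
    intro e he
    rw [hT, mem_filter, mem_range] at he
    rw [mem_union, mem_range, mem_biUnion]
    by_cases hlt : e < N % L
    · exact Or.inl hlt
    · right
      refine ⟨(N - 1 - e) / L, ?_, ?_⟩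
      · rw [hK, mem_filter, mem_range]
        refine ⟨?_, e, he.1, rfl, ?_⟩
        · rw [Nat.div_lt_iff_lt_mul (by omega)]
          have := Nat.div_add_mod N L
          have e2 : L * (N / L) = N / L * L := mul_comm _ _
          omega
        · exact he.2
      · rw [mem_filter, mem_range]
        exact ⟨he.1, rfl⟩
  refine (card_le_card h1).trans ((card_union_le _ _).trans ?_)
  rw [card_range]
  have h2 : N % L ≤ L - 1 := by
    have := Nat.mod_lt N (by omega : 0 < L)
    omega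
  have h3 : (K.biUnion fun j => (range N).filter fun e => (N - 1 - e) / L = j).card ≤ L * K.card := by
    rw [mul_comm]
    apply card_biUnion_le_card_mul
    intro j _
    have h4 : ((range N).filter fun e => (N - 1 - e) / L = j).image (fun e => N - 1 - e) ⊆ Ico (j * L) (j * L + L) := by
      intro x hx
      rw [mem_image] at hx
      obtain ⟨e, he, rfl⟩ := hx
      rw [mem_filter, mem_range] at he
      rw [mem_Ico]
      have h5 := Nat.div_add_mod (N - 1 - e) L
      have h6 := Nat.mod_lt (N - 1 - e) (by omega : 0 < L)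
      rw [he.2, mul_comm] at h5
      omega
    have h5 : ((range N).filter fun e => (N - 1 - e) / L = j).card =
        (((range N).filter fun e => (N - 1 - e) / L = j).image (fun e => N - 1 - e)).card := by
      symm
      apply card_image_of_injOn
      intro e he e' he' hee
      rw [mem_coe, mem_filter, mem_range] at he he'
      simp only at hee
      omega
    rw [h5]
    refine (card_le_card h4).trans (le_of_eq ?_)
    rw [Nat.card_Ico]
    omega
  omega

/-- the characteristic function of the words of a weighted automaton decays -/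
theorem aut_decays (b : ℕ) (hb : 2 ≤ b) (L : ℕ) (hL : 1 ≤ L) (η : ℝ) (hη : 0 < η) (hη1 : η ≤ 1) : ∃ γ : ℝ, 0 < γ ∧ γ < 1 ∧
    ∀ (Q : Type) [Fintype Q] [DecidableEq Q] (G : ℕ → Fin b → Matrix Q Q ℝ), (∀ r c q q', 0 ≤ G r c q q') →
    ∀ N : ℕ, (∀ r, r + L ≤ N → ∀ (u : Fin L → Fin b) (q q' : Q), mp G r u q q' ≤ (1 - η) * Rm G r L q q') →
    ∀ q q' : Q, 0 < Rm G 0 N q q' → ∀ c κ : ℤ,
    Decays b (b ^ L).factorial L N γ κ (univ : Finset (Fin N → Fin b)) (fun v => mp G 0 v q q' / Rm G 0 N q q')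
      (fun v => c + κ * ((vb b v : ℕ) : ℤ)) := by
  classical
  have hbr : (2 : ℝ) ≤ b := by exact_mod_cast hb
  have hb2 : (0 : ℝ) < (b : ℝ) ^ 2 := by positivity
  have hb21 : (1 : ℝ) ≤ (b : ℝ) ^ 2 := by nlinarith
  have hbn : 0 < b := by omega
  have hb1 : (2 : ℝ) ≤ ((b ^ L : ℕ) : ℝ) := by
    have h1 : b ^ 1 ≤ b ^ L := Nat.pow_le_pow_right hbn hL
    have h2 : ((b ^ 1 : ℕ) : ℝ) ≤ ((b ^ L : ℕ) : ℝ) := by exact_mod_cast h1
    rw [pow_one] at h2
    linarith
  have hb0 : (0 : ℝ) < ((b ^ L : ℕ) : ℝ) := by linarith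
  have hF0 : (0 : ℝ) < ((b ^ L).factorial : ℝ) := by exact_mod_cast Nat.factorial_pos _
  have hF1 : (1 : ℝ) ≤ ((b ^ L).factorial : ℝ) := by exact_mod_cast Nat.factorial_pos _
  obtain ⟨δ, hδ⟩ : ∃ δ : ℝ, δ = 1 / ((b : ℝ) ^ 2 * ((b ^ L : ℕ) : ℝ) * ((b ^ L).factorial : ℝ)) := ⟨_, rfl⟩
  have hδ0 : 0 < δ := by rw [hδ]; positivity
  have hden : (2 : ℝ) ≤ (b : ℝ) ^ 2 * ((b ^ L : ℕ) : ℝ) * ((b ^ L).factorial : ℝ) := by
    calc (2 : ℝ) = 1 * 2 * 1 := by norm_num
      _ ≤ (b : ℝ) ^ 2 * ((b ^ L : ℕ) : ℝ) * ((b ^ L).factorial : ℝ) := by gcongr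
  have hδ1 : δ ≤ 1 / 2 := by
    rw [hδ]
    exact div_le_div_of_nonneg_left (by norm_num) (by norm_num) hden
  obtain ⟨γ, hγ⟩ : ∃ γ : ℝ, γ = 1 - 4 * (η / ((b ^ L : ℕ) : ℝ) ^ 2) * δ ^ 2 := ⟨_, rfl⟩
  have h36 : η / ((b ^ L : ℕ) : ℝ) ^ 2 ≤ 1 / 4 := by
    rw [div_le_div_iff₀ (by positivity) (by norm_num)]
    nlinarith
  have hη0 : 0 < η / ((b ^ L : ℕ) : ℝ) ^ 2 := by positivity
  have hδ2 : δ ^ 2 ≤ (1 / 2) ^ 2 := pow_le_pow_left₀ hδ0.le hδ1 2
  have hδ3 : 0 < δ ^ 2 := by positivity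
  have hγ1 : γ < 1 := by
    rw [hγ]
    have : 0 < 4 * (η / ((b ^ L : ℕ) : ℝ) ^ 2) * δ ^ 2 := by positivity
    linarith
  have hγ0 : 0 < γ := by
    rw [hγ]
    nlinarith
  refine ⟨γ, hγ0, hγ1, fun Q _ _ G hG N hat q q' hZ c κ => ⟨fun v _ => ?_, ?_, fun θ' N' hfar _ => ?_⟩⟩
  · exact div_nonneg (mp_nonneg G hG N 0 v q q') hZ.le
  · rw [← sum_div]
    exact div_self hZ.ne'
  rw [shift_sum univ (fun v : Fin N → Fin b => mp G 0 v q q' / Rm G 0 N q q') (fun v => vb b v) c κ θ']
  obtain ⟨θ, hθ⟩ : ∃ θ : ℝ, θ = κ * θ' := ⟨_, rfl⟩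
  rw [← hθ] at hfar ⊢
  obtain ⟨f, hf⟩ : ∃ f : ℕ → Fin b → ℂ, f = fun (r : ℕ) (c : Fin b) => ee (((c : ℕ) : ℝ) * (b : ℝ) ^ (N - 1 - r) * θ) := ⟨_, rfl⟩
  have hf1 : ∀ r c, ‖f r c‖ = 1 := by
    intro r c
    rw [hf]
    exact norm_ee _
  have hC : ∑ v : Fin N → Fin b, ((mp G 0 v q q' / Rm G 0 N q q' : ℝ) : ℂ) * ee (((vb b v : ℕ) : ℝ) * θ) =
      Cm G f 0 N q q' / (Rm G 0 N q q' : ℂ) := by
    unfold Cm
    rw [sum_div]
    refine sum_congr rfl fun v _ => ?_
    have e1 : ee (((vb b v : ℕ) : ℝ) * θ) = ∏ j : Fin N, f (0 + (j : ℕ)) (v j) := by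
      rw [vb_eq v, hf, Nat.cast_sum, sum_mul, ← ee_sum]
      refine prod_congr rfl fun j _ => ?_
      push_cast
      rw [zero_add]
    rw [e1]
    push_cast
    ring
  rw [hC, norm_div, Complex.norm_real, Real.norm_of_nonneg hZ.le, div_le_iff₀ hZ]
  obtain ⟨K, hK⟩ : ∃ K, K = (range (N / L)).filter fun j => ∃ e, e < N ∧ (N - 1 - e) / L = j ∧
      Far (1 / (b : ℝ) ^ 2) (((b ^ L).factorial : ℝ) * ((b : ℝ) ^ e * θ)) := ⟨_, rfl⟩
  have hcount := far_blocks b L hL (b ^ L).factorial N θ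
  rw [← hK] at hcount
  have hKN : N' ≤ K.card := by
    have h1 := hfar.trans hcount
    by_contra hcon
    rw [not_le] at hcon
    have h2 : L * (K.card + 1) ≤ L * N' := Nat.mul_le_mul_left L hcon
    rw [Nat.mul_add, Nat.mul_one] at h1 h2
    omega
  have hblk : ∀ j ∈ K, j < N / L → ∀ q q', ‖Cm G f (j * L) L q q'‖ ≤ γ * Rm G (j * L) L q q' := by
    intro j hj hjk q q'
    rw [hK, mem_filter] at hj
    obtain ⟨_, e, heN, hej, hfe⟩ := hj
    have h5 := Nat.div_add_mod (N - 1 - e) L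
    have h6 := Nat.mod_lt (N - 1 - e) (by omega : 0 < L)
    rw [hej, mul_comm] at h5
    have h7 : (j + 1) * L ≤ N / L * L := Nat.mul_le_mul_right L hjk
    have h8 := Nat.div_mul_le_self N L
    rw [Nat.add_mul, one_mul] at h7
    rw [hγ]
    apply block L G hG f (j * L) (b ^ (N - j * L - L) * θ) _ η hη δ hδ0.le _ q q'
    · intro u
      exact hat (j * L) (by omega) u q q'
    · intro i hi c
      rw [hf]
      simp only
      have e2 : N - 1 - (j * L + i) = (L - 1 - i) + (N - j * L - L) := by omega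
      rw [e2, pow_add]
      push_cast
      congr 1
      ring
    · intro D hD0 hD n
      obtain ⟨m', hm'⟩ : D.natAbs ∣ (b ^ L).factorial := by
        apply Nat.dvd_factorial (Int.natAbs_pos.2 hD0)
        have : (D.natAbs : ℤ) < (b ^ L : ℕ) := by rwa [Int.natCast_natAbs]
        omega
      obtain ⟨m, hm1, hm2⟩ : ∃ m : ℤ, D * m = (b ^ L).factorial ∧ |m| = m' := by
        rcases le_or_gt 0 D with h0 | h0
        · refine ⟨m', ?_, abs_of_nonneg (by positivity)⟩
          rw [hm']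
          push_cast
          rw [abs_of_nonneg h0]
        · refine ⟨-m', ?_, by rw [abs_neg, abs_of_nonneg (by positivity)]⟩
          rw [hm']
          push_cast
          rw [abs_of_neg h0]
          ring
      obtain ⟨i, hi⟩ : ∃ i : ℕ, e = i + (N - j * L - L) ∧ i ≤ L := ⟨e - (N - j * L - L), by omega, by omega⟩
      have h1 := hfe (m * b ^ i * n)
      have e1 : ((b ^ L).factorial : ℝ) * ((b : ℝ) ^ e * θ) - ((m * b ^ i * n : ℤ) : ℝ) =
          m * b ^ i * ((D : ℝ) * (b ^ (N - j * L - L) * θ) - n) := by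
        have e3 : ((D * m : ℤ) : ℝ) = ((b ^ L).factorial : ℝ) := by rw [hm1]; push_cast; rfl
        push_cast at e3
        rw [← e3, hi.1, pow_add]
        push_cast
        ring
      rw [e1, abs_mul, abs_mul] at h1
      have h2 : |(m : ℝ)| ≤ ((b ^ L).factorial : ℝ) := by
        have : |m| ≤ ((b ^ L).factorial : ℤ) := by
          rw [hm2]
          have h3 : m' ≤ (b ^ L).factorial := by
            rw [hm']
            exact Nat.le_mul_of_pos_left _ (Int.natAbs_pos.2 hD0)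
          exact_mod_cast h3
        exact_mod_cast this
      have h3 : |(b : ℝ) ^ i| ≤ ((b ^ L : ℕ) : ℝ) := by
        rw [abs_of_nonneg (by positivity)]
        push_cast
        exact pow_le_pow_right₀ (by linarith) hi.2
      have h4 : 1 / (b : ℝ) ^ 2 ≤ ((b ^ L).factorial : ℝ) * ((b ^ L : ℕ) : ℝ) * |(D : ℝ) * (b ^ (N - j * L - L) * θ) - n| :=
        h1.trans (mul_le_mul_of_nonneg_right (mul_le_mul h2 h3 (abs_nonneg _) hF0.le) (abs_nonneg _))
      rw [div_le_iff₀ (by positivity)] at h4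
      rw [hδ, div_le_iff₀ (by positivity)]
      linarith
  have hch := chain L G hG f hf1 γ hγ0.le K (N / L) hblk
  have hKf : K.filter (· < N / L) = K := by
    apply filter_true_of_mem
    intro j hj
    rw [hK, mem_filter, mem_range] at hj
    exact hj.1
  rw [hKf] at hch
  have hN : N = N / L * L + N % L := by
    have := Nat.div_add_mod N L
    have e2 : L * (N / L) = N / L * L := mul_comm _ _
    omega
  have hpow : γ ^ K.card ≤ γ ^ N' := pow_le_pow_of_le_one hγ0.le hγ1.le hKN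
  obtain ⟨k, hk⟩ : ∃ k, k = N / L := ⟨_, rfl⟩
  obtain ⟨t, ht⟩ : ∃ t, t = N % L := ⟨_, rfl⟩
  rw [← hk] at hch hN
  rw [← ht] at hN
  clear hcount hC hat
  subst hN
  rw [Cm_add, Rm_add, mul_sum]
  refine (norm_sum_le _ _).trans (sum_le_sum fun p _ => ?_)
  rw [norm_mul]
  have hR1 := Rm_nonneg G hG 0 (k * L) q p
  have hR2 := Rm_nonneg G hG (0 + k * L) t p q'
  calc ‖Cm G f 0 (k * L) q p‖ * ‖Cm G f (0 + k * L) t p q'‖ ≤
      (γ ^ K.card * Rm G 0 (k * L) q p) * Rm G (0 + k * L) t p q' := by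
        apply mul_le_mul (hch q p) (Cm_le G hG f hf1 _ _ p q') (norm_nonneg _)
        positivity
    _ ≤ (γ ^ N' * Rm G 0 (k * L) q p) * Rm G (0 + k * L) t p q' := by
        apply mul_le_mul_of_nonneg_right _ hR2
        exact mul_le_mul_of_nonneg_right hpow hR1
    _ = _ := by ring

end Pool.Agent.K3h89.RD
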