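import Pool.Agent.K3h54.RD.Fam
import Pool.Agent.K3h89.RD.AutB

/-!
# Thin families of configurations: words read by weighted automata
-/

set_option autoImplicit false

namespace Pool.Agent.K3h89.RD

open Finset
open Pool.Agent.H429R2.Auto
open Pool.Agent.Y933.KH
open Pool.Agent.K3h54.RD
open Pool.Agent.R459.Eq (Decays)

open Classical in
/-- **words read by a weighted automaton** -/
theorem aut (A D L : ℕ) (δ ε η : ℝ) (hL : 1 ≤ L) (hδ : 0 < δ) (hε : 0 < ε) (hη : 0 < η) : ∃ N0 : ℕ,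
    ∀ N : ℕ, N0 ≤ N → ∀ (y : Conf) (s : ℤ) (a : ℕ) (b : ℤ), a ≤ D → |b| ≤ D → (a ≠ 0 ∨ b ≠ 0) →
    ∀ (n : ℕ) (i : ℤ) (Q : Type) [Fintype Q] [DecidableEq Q] (G : ℕ → Fin 6 → Matrix Q Q ℝ),
    (∀ r c q q', 0 ≤ G r c q q') →
    (∀ r, r + L ≤ N → ∀ (u : Fin L → Fin 6) (q q' : Q), mp G r u q q' ≤ (1 - η) * Rm G r L q q') →
    ∀ q q' : Q,
    (∑ v : Fin N → Fin 6, if ¬ GoodL A D δ ε N s n i a b (put y s v) then mp G 0 v q q' else 0) ≤
      ε * Rm G 0 N q q' := by
  have hη1 : 0 < min η 1 := lt_min hη one_pos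
  obtain ⟨γ, hγ0, hγ1, hdec⟩ := aut_decays 6 (by norm_num) L hL (min η 1) hη1 (min_le_right _ _)
  obtain ⟨N0, hthin⟩ := thin A D δ ε hδ hε (6 ^ L).factorial L (Nat.factorial_pos _) γ hγ0 hγ1
  refine ⟨N0, fun N hN y s a b ha hb hab n i Q _ _ G hG hat q q' => ?_⟩
  have hR := Rm_nonneg G hG 0 N q q'
  rcases hR.eq_or_lt with h0 | h0
  · rw [← h0, mul_zero]
    have h1 : ∀ v : Fin N → Fin 6, mp G 0 v q q' = 0 := by
      have h2 : ∑ v : Fin N → Fin 6, mp G 0 v q q' = 0 := h0.symm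
      intro v
      exact (sum_eq_zero_iff_of_nonneg fun v _ => mp_nonneg G hG N 0 v q q').1 h2 v (mem_univ v)
    simp [h1]
  · have h2 : Decays 6 (6 ^ L).factorial L N γ 1 (univ : Finset (Fin N → Fin 6))
        (fun v => mp G 0 v q q' / Rm G 0 N q q') (fun v => ((vw v : ℕ) : ℤ)) := by
      have h2' := hdec Q G hG N (fun r hr u q q' => (hat r hr u q q').trans (by
        apply mul_le_mul_of_nonneg_right _ (Rm_nonneg G hG r L q q')
        have : min η 1 ≤ η := min_le_left _ _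
        linarith)) q q' h0 0 1
      have e : (fun v : Fin N → Fin 6 => (0 : ℤ) + 1 * ((vb 6 v : ℕ) : ℤ)) =
          fun v => ((vw v : ℕ) : ℤ) := by
        funext v
        rw [zero_add, one_mul]
        rfl
      rwa [e] at h2'
    have h3 := hthin N hN y s a b ha hb hab n i _ _ _ _ h2 (fun v _ => ⟨by positivity, by
      have := vw_lt v
      exact_mod_cast this⟩)
    have h4 : (∑ v : Fin N → Fin 6, if ¬ GoodL A D δ ε N s n i a b (put y s v) then mp G 0 v q q' else 0) =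
        Rm G 0 N q q' * ∑ v : Fin N → Fin 6,
          if ¬ GoodL A D δ ε N s n i a b (putW y s N (((vw v : ℕ) : ℤ)).toNat) then mp G 0 v q q' / Rm G 0 N q q' else 0 := by
      rw [mul_sum]
      refine sum_congr rfl fun v _ => ?_
      rw [Int.toNat_natCast, putW_vw]
      by_cases hv : GoodL A D δ ε N s n i a b (put y s v)
      · rw [if_neg (not_not_intro hv), if_neg (not_not_intro hv), mul_zero]
      · rw [if_pos hv, if_pos hv, mul_div_cancel₀ _ h0.ne']
    rw [h4, mul_comm ε]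
    exact mul_le_mul_of_nonneg_left h3 hR

end Pool.Agent.K3h89.RD
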